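import Pool.Agent.Q17.KH.Ext
import Pool.Agent.Q237.AM.MGR

/-!
# Brauer's conjecture `k(B) ≤ |D|` and the numbers of characters of given height

Blocks are given by their sets of irreducible characters and a valuation ring `O` of `ℂ` containing
`p` in its maximal ideal; `IsIrr`, `IsBlock` and `IsDefectGroup` are from
`Pool.Agent.H254R3.IN.Defs`.
-/

set_option autoImplicit false

open scoped Classical

namespace Pool.Agent.Results.MP_a15589_al.HeightByHeight

open Pool.Agent.H254R3.IN (IsIrr IsBlock IsDefectGroup)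

/-- the block `B` is stable under all automorphisms of `ℂ` -/
def IsRational {G : Type} (B : Set (G → ℂ)) : Prop :=
  ∀ s : ℂ ≃+* ℂ, ∀ χ ∈ B, (fun g => s (χ g)) ∈ B

/-- the number of the characters of height `h` in the block `B` of `G` with defect group `D` -/
noncomputable def numHeight (p : ℕ) {G : Type} [Group G] (D : Subgroup G) (B : Set (G → ℂ))
    (h : ℕ) : ℕ :=
  ({χ | χ ∈ B ∧ ∃ n : ℕ, (n : ℂ) = χ 1 ∧ n.factorization p = D.index.factorization p + h} :
    Set (G → ℂ)).ncard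

/-- the wreath product of `G` with the group `A` in its regular action -/
abbrev WreathRegular (G : Type) [Group G] (A : Type) [Group A] : Type :=
  (A → G) ⋊[mulAutArrow (G := A) (A := A) (M := G)] A

/-- the block `B₁ ⊗ B₂` of the direct product -/
def prodBlock {G₁ G₂ : Type} (B₁ : Set (G₁ → ℂ)) (B₂ : Set (G₂ → ℂ)) : Set (G₁ × G₂ → ℂ) :=
  {χ | ∃ χ₁ ∈ B₁, ∃ χ₂ ∈ B₂, χ = fun x => χ₁ x.1 * χ₂ x.2}

/-- a class of groups closed under isomorphism and direct products of two groups -/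
def Closed (X : ∀ (P : Type) [Group P], Prop) : Prop :=
  (∀ (P Q : Type) [Group P] [Group Q], Nonempty (P ≃* Q) → X P → X Q) ∧
  ∀ (P Q : Type) [Group P] [Group Q], X P → X Q → X (P × Q)

theorem Closed.pow {X : ∀ (P : Type) [Group P], Prop} (h : Closed X) (P : Type) [Group P] (n : ℕ)
    (hn : 1 ≤ n) (hP : X P) : X (Fin n → P) := by
  induction n, hn using Nat.le_induction with
  | base => exact h.1 _ _ ⟨(MulEquiv.funUnique (Fin 1) P).symm⟩ hP
  | succ n _ ih =>
      refine h.1 _ _ ⟨?_⟩ (h.2 _ _ hP ih)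
      exact
        { toFun := fun x => Fin.cons x.1 x.2
          invFun := fun f => (f 0, Fin.tail f)
          left_inv := fun x => by
            refine Prod.ext ?_ ?_
            · change (Fin.cons x.1 x.2 : Fin (n + 1) → P) 0 = x.1
              rw [Fin.cons_zero]
            · change Fin.tail (Fin.cons x.1 x.2 : Fin (n + 1) → P) = x.2
              rw [Fin.tail_cons]
          right_inv := fun f => Fin.cons_self_tail f
          map_mul' := fun x y => by
            funext i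
            refine Fin.cases ?_ (fun j => ?_) i
            · rfl
            · rfl }

theorem ncard_prod {G₁ G₂ : Type} [Group G₁] [Group G₂] [Fintype G₁] [Fintype G₂]
    {O : ValuationSubring ℂ} {B₁ : Set (G₁ → ℂ)} {B₂ : Set (G₂ → ℂ)} (h1 : IsBlock O B₁)
    (h2 : IsBlock O B₂) : (prodBlock B₁ B₂).ncard = B₁.ncard * B₂.ncard := by
  have h3 : prodBlock B₁ B₂ =
      (fun q : (G₁ → ℂ) × (G₂ → ℂ) => fun x : G₁ × G₂ => q.1 x.1 * q.2 x.2) '' (B₁ ×ˢ B₂) := by
    ext χ
    constructor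
    · rintro ⟨χ₁, h1, χ₂, h2, rfl⟩
      exact ⟨(χ₁, χ₂), ⟨h1, h2⟩, rfl⟩
    · rintro ⟨⟨χ₁, χ₂⟩, ⟨h1, h2⟩, rfl⟩
      exact ⟨χ₁, h1, χ₂, h2, rfl⟩
  rw [h3, Set.ncard_image_of_injOn, Set.ncard_prod]
  rintro ⟨a, b⟩ ⟨ha, hb⟩ ⟨a', b'⟩ ⟨ha', hb'⟩ h
  have h4 := Pool.Agent.Q111.OS.tp_inj (h1.irr a ha) (h1.irr a' ha') (h2.irr b hb)
    (h2.irr b' hb') h
  exact Prod.ext h4.1 h4.2

/-- a finite group `G` in the class `Y` and a block `B` stable under all automorphisms of `ℂ` with a
defect group in the class `X` -/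
structure Data (p : ℕ) (O : ValuationSubring ℂ) (X Y : ∀ (P : Type) [Group P], Prop) : Type 1 where
  G : Type
  grp : Group G
  fin : Fintype G
  hY : Y G
  B : Set (G → ℂ)
  hB : IsBlock O B
  rat : IsRational B
  D : Subgroup G
  hD : IsDefectGroup p O B D
  hX : X D

/-- the number of characters -/
noncomputable def Data.k {p : ℕ} {O : ValuationSubring ℂ}
    {X Y : ∀ (P : Type) [Group P], Prop} (x : Data p O X Y) : ℕ := x.B.ncard

/-- the order of the defect group -/
noncomputable def Data.delta {p : ℕ} {O : ValuationSubring ℂ}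
    {X Y : ∀ (P : Type) [Group P], Prop} (x : Data p O X Y) : ℕ := by
  letI := x.grp
  exact Nat.card x.D

/-- the order of the group -/
noncomputable def Data.card {p : ℕ} {O : ValuationSubring ℂ}
    {X Y : ∀ (P : Type) [Group P], Prop} (x : Data p O X Y) : ℕ := Nat.card x.G

/-- the exponent of `p` in the order of the group -/
noncomputable def Data.a {p : ℕ} {O : ValuationSubring ℂ}
    {X Y : ∀ (P : Type) [Group P], Prop} (x : Data p O X Y) : ℕ := (Nat.card x.G).factorization p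

/-- the number of characters of height `h` -/
noncomputable def Data.kh {p : ℕ} {O : ValuationSubring ℂ}
    {X Y : ∀ (P : Type) [Group P], Prop} (x : Data p O X Y) (h : ℕ) : ℕ := by
  letI := x.grp
  exact numHeight p x.D x.B h

theorem general (p : ℕ) [Fact p.Prime] (O : ValuationSubring ℂ) (hO : (p : ℂ) ∈ O.nonunits)
    (X Y : ∀ (P : Type) [Group P], Prop) (hX : Closed X)
    (hY : ∀ (G H : Type) [Group G] [Group H] [Finite G] [Finite H], Y G → Y H → Y (G × H))
    (hY' : ∀ (G A : Type) [Group G] [CommGroup A] [Finite G] [Finite A], Y G →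
      Y (WreathRegular G A))
    (P₀ : Type) [Group P₀] [Finite P₀] (hP₀ : IsPGroup p P₀) (hXP : X P₀) (hYP : Y P₀)
    (θ : P₀ → ℂ) (hθ : IsIrr θ) (hθ1 : θ 1 = p) (M : ℕ) (hM : 1 ≤ M)
    (h : ∀ n : ℕ, ∃ C : ℕ, ∀ (G : Type) [Group G] [Finite G], Y G → ∀ (B : Set (G → ℂ))
      (D : Subgroup G), IsBlock O B → IsDefectGroup p O B D → IsRational B → X D →
      ∀ i : ℕ, M ∣ i → numHeight p D B i ^ n ≤ C * (Nat.card D ^ n * Nat.card G))
    (G : Type) [Group G] [Finite G] (hYG : Y G) (B : Set (G → ℂ)) (D : Subgroup G)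
    (hB : IsBlock O B) (hD : IsDefectGroup p O B D) (hXD : X D) : B.ncard ≤ Nat.card D := by
  have hF : Fintype G := Fintype.ofFinite G
  have hF₀ : Fintype P₀ := Fintype.ofFinite P₀
  have hDp : IsPGroup p D := by
    obtain ⟨x, ⟨P, rfl⟩, -⟩ := hD
    exact P.2.map _
  obtain ⟨b, hb⟩ := (Pool.Agent.Q17.AM.p_fmt G p O hO D hDp B hB).1 hD
  obtain ⟨A, i1, i2, β, b', -, hdt, hg, -, hk, -⟩ :=
    Pool.Agent.Q17.AM.p_rat G p O hO B D b ⟨hB, hD, hb⟩
  have hfin : Finite (WreathRegular G A) :=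
    Finite.of_equiv _ SemidirectProduct.equivProd.symm
  obtain ⟨hb1, hb2⟩ := Pool.Agent.Q17.KH.pgroup_block hO P₀ hP₀
  have hp : p.Prime := Fact.out
  have h1 := Pool.Agent.Q17.KH.height_pow (Data.k (p := p) (O := O) (X := X) (Y := Y)) Data.delta
    Data.card Data.a Data.kh (fun x => by
      obtain ⟨G, gG, fG, hYG, B, hB, hr, D, hD, hXD⟩ := x
      exact Nat.card_pos (α := D)) (fun x => by
      obtain ⟨G, gG, fG, hYG, B, hB, hr, D, hD, hXD⟩ := x
      exact Nat.card_pos (α := G)) (fun x => by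
      obtain ⟨G, gG, fG, hYG, B, hB, hr, D, hD, hXD⟩ := x
      exact Pool.Agent.Q17.KH.sum_kh hO hB hD) (fun x y => by
      obtain ⟨G, gG, fG, hYG, B, hB, hr, D, hD, hXD⟩ := x
      obtain ⟨G', gG', fG', hYG', B', hB', hr', D', hD', hXD'⟩ := y
      refine ⟨⟨G × G', inferInstance, inferInstance, hY G G' hYG hYG', prodBlock B B',
        Pool.Agent.Q111.OS.block_TB hB hB', ?_, D.prod D',
        Pool.Agent.Q111.OS.defect_TB hB hB' hD hD',
        hX.1 _ _ ⟨(Subgroup.prodEquiv D D').symm⟩ (hX.2 _ _ hXD hXD')⟩, ncard_prod hB hB',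
        Pool.Agent.Q111.OS.card_prod_sub D D', Nat.card_prod G G', ?_,
        fun i j => Pool.Agent.Q17.KH.kh_prod hB hB' D D' i j⟩
      · rintro s _ ⟨χ₁, h1, χ₂, h2, rfl⟩
        exact ⟨_, hr s χ₁ h1, _, hr' s χ₂ h2, funext fun x => map_mul s _ _⟩
      · change (Nat.card (G × G')).factorization p =
          (Nat.card G).factorization p + (Nat.card G').factorization p
        rw [Nat.card_prod, Nat.factorization_mul Nat.card_pos.ne' Nat.card_pos.ne',
          Finsupp.add_apply])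
    ⟨P₀, inferInstance, inferInstance, hYP, {χ : P₀ → ℂ | IsIrr χ}, hb1,
      fun s χ hχ => (Pool.Agent.Q237.AM.irr_gal s χ).mp hχ, ⊤, hb2,
      hX.1 _ _ ⟨Subgroup.topEquiv.symm⟩ hXP⟩ (by
      change 1 ≤ ({χ | IsIrr χ ∧ ∃ n : ℕ, (n : ℂ) = χ 1 ∧
        n.factorization p = (⊤ : Subgroup P₀).index.factorization p + 1} : Set (P₀ → ℂ)).ncard
      refine (Set.ncard_pos ((Pool.Agent.Q17.AM.block_fin hb1).subset fun χ h => h.1)).mpr
        ⟨θ, hθ, p, hθ1.symm, ?_⟩
      rw [Subgroup.index_top, Nat.factorization_one, Finsupp.zero_apply, zero_add,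
        Nat.Prime.factorization_self hp]) M hM (fun n => by
      obtain ⟨C, hC⟩ := h n
      refine ⟨C, fun x i hi => ?_⟩
      obtain ⟨G, gG, fG, hYG, B, hB, hr, D, hD, hXD⟩ := x
      exact hC G hYG B D hB hD hr hXD i hi)
    ⟨WreathRegular G A, inferInstance, Fintype.ofFinite _, hY' G A hYG,
      Pool.Agent.Q17.RB.FX β, hdt.1, fun s χ hχ => (hg s χ).mp hχ,
      Pool.Agent.Q17.RB.Da A D, hdt.2.1,
      hX.1 _ _ ⟨(Pool.Agent.Q17.AM.eDa D).symm⟩
        (Pool.Agent.Q17.AM.Cl.fun (X := X) ⟨hX.1, hX.pow⟩ hXD)⟩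
  change (Pool.Agent.Q17.RB.FX β).ncard ≤ Nat.card (Pool.Agent.Q17.RB.Da A D) at h1
  have hA : Fintype.card A ≠ 0 := Fintype.card_ne_zero
  rw [hk, Nat.card_congr (Pool.Agent.Q17.AM.eDa (A := A) D).toEquiv, Nat.card_fun,
    Nat.card_eq_fintype_card (α := A)] at h1
  exact (Nat.pow_le_pow_iff_left hA).mp h1

/-- **Theorem.** Let `p` be a prime and `M ≥ 1`.
(1) Suppose that for every `n` there is a constant `C` such that `k_h(B) ^ n ≤ C |D| ^ n |G|` for all
finite groups `G`, all `p`-blocks `B` of `G` which are stable under all automorphisms of `ℂ`, `D` a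
defect group, and all `h` divisible by `M`, where `k_h(B)` is the number of irreducible characters of
height `h` in `B`. Then `k(B) ≤ |D|` for all `p`-blocks `B` of all finite groups.
(2) The same for `G` in a class `Y` of finite groups and `D` in a class `X` of groups, if `X` is
closed under isomorphism and direct products, `Y` is closed under direct products and under wreath
products with finite abelian groups in their regular action, and `X` and `Y` contain some finite
`p`-group which has an irreducible character of degree `p`. -/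
theorem result (p : ℕ) [Fact p.Prime] (O : ValuationSubring ℂ) (hO : (p : ℂ) ∈ O.nonunits)
    (M : ℕ) (hM : 1 ≤ M) :
    ((∀ n : ℕ, ∃ C : ℕ, ∀ (G : Type) [Group G] [Finite G] (B : Set (G → ℂ)) (D : Subgroup G),
        IsBlock O B → IsDefectGroup p O B D → IsRational B →
        ∀ h : ℕ, M ∣ h → numHeight p D B h ^ n ≤ C * (Nat.card D ^ n * Nat.card G)) →
      ∀ (G : Type) [Group G] [Finite G] (B : Set (G → ℂ)) (D : Subgroup G),
        IsBlock O B → IsDefectGroup p O B D → B.ncard ≤ Nat.card D) ∧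
    ∀ (X Y : ∀ (P : Type) [Group P], Prop), Closed X →
      (∀ (G H : Type) [Group G] [Group H] [Finite G] [Finite H], Y G → Y H → Y (G × H)) →
      (∀ (G A : Type) [Group G] [CommGroup A] [Finite G] [Finite A], Y G →
        Y (WreathRegular G A)) →
      (∃ (P₀ : Type) (_ : Group P₀) (_ : Finite P₀) (θ : P₀ → ℂ), IsPGroup p P₀ ∧ X P₀ ∧ Y P₀ ∧
        IsIrr θ ∧ θ 1 = p) →
      (∀ n : ℕ, ∃ C : ℕ, ∀ (G : Type) [Group G] [Finite G], Y G → ∀ (B : Set (G → ℂ))
        (D : Subgroup G), IsBlock O B → IsDefectGroup p O B D → IsRational B → X D →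
        ∀ h : ℕ, M ∣ h → numHeight p D B h ^ n ≤ C * (Nat.card D ^ n * Nat.card G)) →
      ∀ (G : Type) [Group G] [Finite G], Y G → ∀ (B : Set (G → ℂ)) (D : Subgroup G),
        IsBlock O B → IsDefectGroup p O B D → X D → B.ncard ≤ Nat.card D := by
  constructor
  · intro h G _ _ B D hB hD
    obtain ⟨P₀, i1, i2, hP₀, θ, hθ, hθ1⟩ := Pool.Agent.Q17.KH.exists_deg_p p
    refine general p O hO (fun _ _ => True) (fun _ _ => True)
      ⟨fun _ _ _ _ _ _ => trivial, fun _ _ _ _ _ _ => trivial⟩ (fun _ _ _ _ _ _ _ _ => trivial)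
      (fun _ _ _ _ _ _ _ => trivial) P₀ hP₀ trivial trivial θ hθ hθ1 M hM (fun n => ?_) G trivial
      B D hB hD trivial
    obtain ⟨C, hC⟩ := h n
    exact ⟨C, fun G _ _ _ B D hB hD hr _ i hi => hC G B D hB hD hr i hi⟩
  · rintro X Y hX hY hY' ⟨P₀, i1, i2, θ, hP₀, hXP, hYP, hθ, hθ1⟩ h G _ _ hYG B D hB hD hXD
    exact general p O hO X Y hX hY hY' P₀ hP₀ hXP hYP θ hθ hθ1 M hM h G hYG B D hB hD hXD

end Pool.Agent.Results.MP_a15589_al.HeightByHeight
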