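import Pool.Agent.Q17.AM.Fin2
import Pool.Agent.Q17.RB.Ineq
import Pool.Agent.Q111.OS.PBK

/-!
# Brauer's conjecture `k(B) ≤ |D|` and blocks stable under all Galois automorphisms

Blocks are given by their sets of irreducible characters and a valuation ring `O` of `ℂ` containing
`p` in its maximal ideal; `IsBlock` and `IsDefectGroup` are from `Pool.Agent.H254R3.IN.Defs`.
-/

set_option autoImplicit false

open scoped Classical

namespace Pool.Agent.Results.MP_a15589_al.RationalBlocks

open Pool.Agent.H254R3.IN (IsBlock IsDefectGroup IsBrauerCorrespondent)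

/-- the block `B` is stable under all automorphisms of `ℂ` -/
def IsRational {G : Type} (B : Set (G → ℂ)) : Prop :=
  ∀ s : ℂ ≃+* ℂ, ∀ χ ∈ B, (fun g => s (χ g)) ∈ B

/-- the wreath product of `G` with the group `A` in its regular action -/
abbrev WreathRegular (G : Type) [Group G] (A : Type) [Group A] : Type :=
  (A → G) ⋊[mulAutArrow (G := A) (A := A) (M := G)] A

/-- the block `B₁ ⊗ B₂` of the direct product -/
def prodBlock {G₁ G₂ : Type} (B₁ : Set (G₁ → ℂ)) (B₂ : Set (G₂ → ℂ)) : Set (G₁ × G₂ → ℂ) :=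
  {χ | ∃ χ₁ ∈ B₁, ∃ χ₂ ∈ B₂, χ = fun x => χ₁ x.1 * χ₂ x.2}

/-- a class of groups closed under isomorphism and direct products of two groups -/
def Closed (X : ∀ (P : Type) [Group P], Prop) : Prop :=
  (∀ (P Q : Type) [Group P] [Group Q], Nonempty (P ≃* Q) → X P → X Q) ∧
  ∀ (P Q : Type) [Group P] [Group Q], X P → X Q → X (P × Q)

theorem Closed.pow {X : ∀ (P : Type) [Group P], Prop} (h : Closed X) (P : Type) [Group P] (n : ℕ)
    (hn : 1 ≤ n) (hP : X P) : X (Fin n → P) := by
  induction n, hn using Nat.le_induction with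
  | base => exact h.1 _ _ ⟨(MulEquiv.funUnique (Fin 1) P).symm⟩ hP
  | succ n _ ih =>
      refine h.1 _ _ ⟨?_⟩ (h.2 _ _ hP ih)
      exact
        { toFun := fun x => Fin.cons x.1 x.2
          invFun := fun f => (f 0, Fin.tail f)
          left_inv := fun x => by
            refine Prod.ext ?_ ?_
            · change (Fin.cons x.1 x.2 : Fin (n + 1) → P) 0 = x.1
              rw [Fin.cons_zero]
            · change Fin.tail (Fin.cons x.1 x.2 : Fin (n + 1) → P) = x.2
              rw [Fin.tail_cons]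
          right_inv := fun f => Fin.cons_self_tail f
          map_mul' := fun x y => by
            funext i
            refine Fin.cases ?_ (fun j => ?_) i
            · rfl
            · rfl }

theorem ncard_prod {G₁ G₂ : Type} [Group G₁] [Group G₂] [Fintype G₁] [Fintype G₂]
    {O : ValuationSubring ℂ} {B₁ : Set (G₁ → ℂ)} {B₂ : Set (G₂ → ℂ)} (h1 : IsBlock O B₁)
    (h2 : IsBlock O B₂) : (prodBlock B₁ B₂).ncard = B₁.ncard * B₂.ncard := by
  have h3 : prodBlock B₁ B₂ =
      (fun q : (G₁ → ℂ) × (G₂ → ℂ) => fun x : G₁ × G₂ => q.1 x.1 * q.2 x.2) '' (B₁ ×ˢ B₂) := by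
    ext χ
    constructor
    · rintro ⟨χ₁, h1, χ₂, h2, rfl⟩
      exact ⟨(χ₁, χ₂), ⟨h1, h2⟩, rfl⟩
    · rintro ⟨⟨χ₁, χ₂⟩, ⟨h1, h2⟩, rfl⟩
      exact ⟨χ₁, h1, χ₂, h2, rfl⟩
  rw [h3, Set.ncard_image_of_injOn, Set.ncard_prod]
  rintro ⟨a, b⟩ ⟨ha, hb⟩ ⟨a', b'⟩ ⟨ha', hb'⟩ h
  have h4 := Pool.Agent.Q111.OS.tp_inj (h1.irr a ha) (h1.irr a' ha') (h2.irr b hb)
    (h2.irr b' hb') h
  exact Prod.ext h4.1 h4.2

/-- a finite group `G` in the class `Y` and a block `B` stable under all automorphisms of `ℂ` with a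
defect group in the class `X` -/
structure Data (p : ℕ) (O : ValuationSubring ℂ) (X Y : ∀ (P : Type) [Group P], Prop) : Type 1 where
  G : Type
  grp : Group G
  fin : Fintype G
  hY : Y G
  B : Set (G → ℂ)
  hB : IsBlock O B
  rat : IsRational B
  D : Subgroup G
  hD : IsDefectGroup p O B D
  hX : X D

/-- the number of characters -/
noncomputable def Data.k {p : ℕ} {O : ValuationSubring ℂ}
    {X Y : ∀ (P : Type) [Group P], Prop} (x : Data p O X Y) : ℕ := x.B.ncard

/-- the order of the defect group -/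
noncomputable def Data.delta {p : ℕ} {O : ValuationSubring ℂ}
    {X Y : ∀ (P : Type) [Group P], Prop} (x : Data p O X Y) : ℕ := by
  letI := x.grp
  exact Nat.card x.D

/-- the order of the group -/
noncomputable def Data.card {p : ℕ} {O : ValuationSubring ℂ}
    {X Y : ∀ (P : Type) [Group P], Prop} (x : Data p O X Y) : ℕ := Nat.card x.G

/-- the Galois-stable block of the wreath product -/
theorem exists_rational (p : ℕ) [Fact p.Prime] (O : ValuationSubring ℂ)
    (hO : (p : ℂ) ∈ O.nonunits) (G : Type) [Group G] [Fintype G] (B : Set (G → ℂ))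
    (D : Subgroup G) (hB : IsBlock O B) (hD : IsDefectGroup p O B D) :
    ∃ (A : Type) (_ : CommGroup A) (_ : Fintype A) (B' : Set (WreathRegular G A → ℂ))
      (D' : Subgroup (WreathRegular G A)), IsBlock O B' ∧ IsDefectGroup p O B' D' ∧
      IsRational B' ∧ Nonempty (D' ≃* (A → D)) ∧ B'.ncard = B.ncard ^ Fintype.card A := by
  have hDp : IsPGroup p D := by
    obtain ⟨x, ⟨P, rfl⟩, -⟩ := hD
    exact P.2.map _
  obtain ⟨b, hb⟩ := (Pool.Agent.Q17.AM.p_fmt G p O hO D hDp B hB).1 hD
  obtain ⟨A, i1, i2, β, b', -, hdt, hg, -, hn, -⟩ :=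
    Pool.Agent.Q17.AM.p_rat G p O hO B D b ⟨hB, hD, hb⟩
  exact ⟨A, i1, i2, Pool.Agent.Q17.RB.FX β, Pool.Agent.Q17.RB.Da A D, hdt.1, hdt.2.1,
    fun s χ hχ => (hg s χ).mp hχ, ⟨Pool.Agent.Q17.AM.eDa D⟩, hn⟩

/-- **Theorem.** Let `p` be a prime.
(1) For every `p`-block `B` of a finite group `G` with defect group `D` there are a finite abelian
group `A` and a block `B'` of the wreath product `G ≀ A` (regular action) which is stable under all
automorphisms of `ℂ`, with a defect group isomorphic to the direct power `D ^ A` and with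
`k(B') = k(B) ^ |A|`.
(2) Let `X` be a class of groups closed under isomorphism and direct products (for instance all
groups, or all abelian groups) and let `Y` be a class of finite groups closed under direct products and
under wreath products with finite abelian groups in their regular action (for instance all finite
groups, or the groups with nonabelian composition factors in a given set). If for every `n` there is a
constant `C` such that `k(B) ^ n ≤ C |D| ^ n |G|` for all `G ∈ Y` and all `p`-blocks `B` of `G` which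
are stable under all automorphisms of `ℂ` and have a defect group `D` in `X`, then `k(B) ≤ |D|` for all
`G ∈ Y` and all `p`-blocks `B` of `G` with a defect group `D` in `X`. -/
theorem result (p : ℕ) [Fact p.Prime] (O : ValuationSubring ℂ) (hO : (p : ℂ) ∈ O.nonunits) :
    (∀ (G : Type) [Group G] [Fintype G] (B : Set (G → ℂ)) (D : Subgroup G), IsBlock O B →
      IsDefectGroup p O B D → ∃ (A : Type) (_ : CommGroup A) (_ : Fintype A)
      (B' : Set (WreathRegular G A → ℂ)) (D' : Subgroup (WreathRegular G A)), IsBlock O B' ∧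
      IsDefectGroup p O B' D' ∧ IsRational B' ∧ Nonempty (D' ≃* (A → D)) ∧
      B'.ncard = B.ncard ^ Fintype.card A) ∧
    ∀ (X Y : ∀ (P : Type) [Group P], Prop), Closed X →
      (∀ (G H : Type) [Group G] [Group H] [Finite G] [Finite H], Y G → Y H → Y (G × H)) →
      (∀ (G A : Type) [Group G] [CommGroup A] [Finite G] [Finite A], Y G →
        Y (WreathRegular G A)) →
      (∀ n : ℕ, ∃ C : ℕ, ∀ (G : Type) [Group G] [Finite G], Y G → ∀ (B : Set (G → ℂ))
        (D : Subgroup G), IsBlock O B → IsDefectGroup p O B D → IsRational B → X D →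
        B.ncard ^ n ≤ C * (Nat.card D ^ n * Nat.card G)) →
      ∀ (G : Type) [Group G] [Finite G], Y G → ∀ (B : Set (G → ℂ)) (D : Subgroup G),
        IsBlock O B → IsDefectGroup p O B D → X D → B.ncard ≤ Nat.card D := by
  refine ⟨fun G _ _ B D hB hD => exists_rational p O hO G B D hB hD, ?_⟩
  intro X Y hX hY hY' h G _ _ hYG B D hB hD hXD
  have hF : Fintype G := Fintype.ofFinite G
  obtain ⟨A, i1, i2, B', D', hB', hD', hr, ⟨e⟩, hk⟩ := exists_rational p O hO G B D hB hD
  have hfin : Finite (WreathRegular G A) :=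
    Finite.of_equiv _ SemidirectProduct.equivProd.symm
  have h1 := Pool.Agent.Q17.RB.ineq_pow (Data.k (p := p) (O := O) (X := X) (Y := Y)) Data.delta
    Data.card (fun x => by
      obtain ⟨G, gG, fG, hYG, B, hB, hr, D, hD, hXD⟩ := x
      exact Nat.card_pos (α := D)) (fun x => by
      obtain ⟨G, gG, fG, hYG, B, hB, hr, D, hD, hXD⟩ := x
      exact Nat.card_pos (α := G)) (fun x y => by
      obtain ⟨G, gG, fG, hYG, B, hB, hr, D, hD, hXD⟩ := x
      obtain ⟨G', gG', fG', hYG', B', hB', hr', D', hD', hXD'⟩ := y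
      refine ⟨⟨G × G', inferInstance, inferInstance, hY G G' hYG hYG', prodBlock B B',
        Pool.Agent.Q111.OS.block_TB hB hB', ?_, D.prod D',
        Pool.Agent.Q111.OS.defect_TB hB hB' hD hD',
        hX.1 _ _ ⟨(Subgroup.prodEquiv D D').symm⟩ (hX.2 _ _ hXD hXD')⟩, ncard_prod hB hB',
        Pool.Agent.Q111.OS.card_prod_sub D D', Nat.card_prod G G'⟩
      rintro s _ ⟨χ₁, h1, χ₂, h2, rfl⟩
      exact ⟨_, hr s χ₁ h1, _, hr' s χ₂ h2, funext fun x => map_mul s _ _⟩) (fun n => by
      obtain ⟨C, hC⟩ := h n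
      refine ⟨C, fun x => ?_⟩
      obtain ⟨G, gG, fG, hYG, B, hB, hr, D, hD, hXD⟩ := x
      exact hC G hYG B D hB hD hr hXD)
    ⟨WreathRegular G A, inferInstance, Fintype.ofFinite _, hY' G A hYG, B', hB', hr, D', hD',
      hX.1 _ _ ⟨e.symm⟩ (Pool.Agent.Q17.AM.Cl.fun (X := X) ⟨hX.1, hX.pow⟩ hXD)⟩
  change B'.ncard ≤ Nat.card D' at h1
  have hA : Fintype.card A ≠ 0 := Fintype.card_ne_zero
  rw [hk, Nat.card_congr e.toEquiv, Nat.card_fun, Nat.card_eq_fintype_card (α := A)] at h1
  exact (Nat.pow_le_pow_iff_left hA).mp h1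

end Pool.Agent.Results.MP_a15589_al.RationalBlocks
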