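import Pool.Agent.Q17.DC.All2

/-!
# The number of characters in a block, relative to a normal subgroup

`N` is a normal subgroup of an arbitrary finite group `G` and `y` is a `p`-element of order `p`
modulo `N` which is central modulo `N`. The hypothesis is on the centralisers in `N` of the
`p`-elements of the coset `yN` only. If a defect group `D` of the block `B` of `G` meets `N⟨y⟩`
outside `N` then there is exactly one block `b` of `H` with defect group `D` and `b^G = B`; if the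
centre of `D` meets `N⟨y⟩` outside `N` then `b` is the only block of `H` with `b^G = B`, and `B` and
`b` have the same number of characters, of every defect and with every field of values. So
Brauer's `k(B)`-conjecture holds for `B` if and only if it holds for `b`.

From `Pool.Agent.Q17.DC.Defs`: `Sec p N K x` says that the `p`-part of `x` is in `K` and not
in `N`.
-/

open scoped Classical
open Pool.Agent.H254R3.IN Pool.Agent.Q17.DC

namespace Pool.Agent.Results.MP_a15589_al.RelativeNumber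

/-- The hypotheses on `(G, N, y, P, H)`: `y ∈ P` has order `p` modulo `N` and is central modulo `N`;
`H` contains the Sylow `p`-subgroup `P` and `C_N(x)` for all `x ∈ P ∩ yN`, and `G = NH`. -/
def Hyp {G : Type} [Group G] (p : ℕ) (N : Subgroup G) (y : G) (P : Sylow p G) (H : Subgroup G) :
    Prop :=
  (y ∈ P ∧ y ∉ N ∧ y ^ p ∈ N ∧ ∀ g : G, g * y * g⁻¹ * y⁻¹ ∈ N) ∧
    (P : Subgroup G) ≤ H ∧ (∀ g : G, ∃ n ∈ N, ∃ h ∈ H, g = n * h) ∧
    ∀ x ∈ P, y⁻¹ * x ∈ N → ∀ n ∈ N, Commute n x → n ∈ H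

/-- The block `b` of the subgroup `H` induces the block `B` of `G`:
`λ_B(K⁺) = λ_b((K ∩ H)⁺)` for the class `K` of every `x`. -/
def Induces {G : Type} [Group G] (O : ValuationSubring ℂ) (B : Set (G → ℂ)) {H : Subgroup G}
    (b : Set (H → ℂ)) : Prop :=
  ∀ χ ∈ B, ∀ θ ∈ b, ∀ x : G,
    omega χ x - ∑ᶠ y : {y : H // IsConj x (y : G)}, θ y / θ 1 ∈ O.nonunits

/-- `k(B)`. -/
noncomputable def k {G : Type} (B : Set (G → ℂ)) : ℕ := Nat.card B

/-- `k(B; d, S)`: the number of characters `χ` in `B` of `p`-defect `d` (`|G|_p = p ^ d χ(1)_p`) such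
that `S` is the group of the field automorphisms of `ℂ` which fix all values of `χ`. -/
noncomputable def kd {G : Type} [Group G] (p d : ℕ) (S : Set (ℂ ≃+* ℂ)) (B : Set (G → ℂ)) : ℕ :=
  Nat.card {χ : G → ℂ // χ ∈ B ∧
    (∃ n : ℕ, (n : ℂ) = χ 1 ∧ (Nat.card G).factorization p = d + n.factorization p) ∧
    {τ : ℂ ≃+* ℂ | ∀ x, τ (χ x) = χ x} = S}

/-- The number of characters in `B` which do not vanish at all elements whose `p`-part is in `K`
and not in `N`, and have stabiliser `S`. -/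
noncomputable def knv {G : Type} [Group G] (p : ℕ) (N K : Subgroup G) (S : Set (ℂ ≃+* ℂ))
    (B : Set (G → ℂ)) : ℕ :=
  Nat.card {χ : G → ℂ // χ ∈ B ∧ (∃ x : G, Sec p N K x ∧ χ x ≠ 0) ∧
    {τ : ℂ ≃+* ℂ | ∀ x, τ (χ x) = χ x} = S}

/-- the data -/
def dt {G : Type} [Group G] (p : ℕ) (O : ValuationSubring ℂ) (N K : Subgroup G) (a b : Prop)
    (T : ℕ → ℕ → Prop) (U : Set (ℂ ≃+* ℂ) → Prop) : Pt G :=
  ⟨p, O, N, K, ⊥, fun _ => 1, a, b, T, U⟩

/-- **Theorem.** Let `G` be a finite group, `N` a normal subgroup, `P` a Sylow `p`-subgroup of `G`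
and `y ∈ P ∖ N` with `y ^ p ∈ N` and `[G, y] ≤ N` (so `G / N` is arbitrary, with a central subgroup
of order `p`). Let `H ≥ P` be a subgroup with `G = NH` and `C_N(x) ≤ H` for all `x ∈ P ∩ yN`. Let `B`
be a `p`-block of `G` with a defect group `D ≤ H` (every block has one) and let `D` contain an element
of `N⟨y⟩ ∖ N`. Then there is a block `b` of `H` such that
(1) `b^G = B` and `D` is a defect group of `b`; `b` is the only block of `H` with `b^G = B` and with a
defect group which meets `N⟨y⟩` outside `N`, and all these defect groups of `b` are defect groups of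
`B`;
(2) `B` and `b` have the same number of characters, with every field of values, which do not vanish at
all elements whose `p`-part is in `N⟨y⟩ ∖ N`;
(3) if the centre of `D` meets `N⟨y⟩ ∖ N` then `b` is the only block of `H` with `b^G = B`,
`k(B) = k(b)`, more precisely `B` and `b` have the same number of characters of every defect and with
every field of values; so `k(B) ≤ |D|` if and only if `k(b) ≤ |D|`. -/
theorem result (G : Type) [Group G] [Fintype G] (p : ℕ) [hp : Fact p.Prime] (N H : Subgroup G)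
    [N.Normal] (P : Sylow p G) (y : G) (hyp : Hyp p N y P H) (O : ValuationSubring ℂ)
    (hO : (p : ℂ) ∈ O.nonunits) (B : Set (G → ℂ)) (hB : IsBlock O B) (D : Subgroup G)
    (hDH : D ≤ H) (hD : IsDefectGroup p O B D)
    (hm : ∃ z ∈ D, z ∈ N ⊔ Subgroup.zpowers y ∧ z ∉ N) :
    ∃ b : Set (H → ℂ), IsBlock O b ∧ Induces O B b ∧ IsDefectGroup p O b (D.subgroupOf H) ∧
      (∀ b' : Set (H → ℂ), IsBlock O b' → Induces O B b' →
        (∃ E : Subgroup H, IsDefectGroup p O b' E ∧
          ∃ z ∈ E, (z : G) ∈ N ⊔ Subgroup.zpowers y ∧ (z : G) ∉ N) → b' = b) ∧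
      (∀ E : Subgroup H, IsDefectGroup p O b E →
        (∃ z ∈ E, (z : G) ∈ N ⊔ Subgroup.zpowers y ∧ (z : G) ∉ N) →
        IsDefectGroup p O B (E.map H.subtype)) ∧
      (∀ S : Set (ℂ ≃+* ℂ), knv p N (N ⊔ Subgroup.zpowers y) S B =
        knv p (N.subgroupOf H) ((N ⊔ Subgroup.zpowers y).subgroupOf H) S b) ∧
      ((∃ z ∈ D, (∀ x ∈ D, Commute z x) ∧ z ∈ N ⊔ Subgroup.zpowers y ∧ z ∉ N) →
        (∀ b' : Set (H → ℂ), IsBlock O b' → Induces O B b' → b' = b) ∧
        (∀ (d : ℕ) (S : Set (ℂ ≃+* ℂ)), kd p d S B = kd p d S b) ∧ k B = k b ∧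
        (k B ≤ Nat.card D ↔ k b ≤ Nat.card (D.subgroupOf H))) := by
  obtain ⟨K, hKdef⟩ : ∃ K, K = N ⊔ Subgroup.zpowers y := ⟨_, rfl⟩
  have td : Pool.Agent.Q17.TC.TD p N y H P := ⟨inferInstance, hyp.1.2.1, hyp.1.2.2.1,
    hyp.1.2.2.2, hyp.1.1, hyp.2.1, hyp.2.2.1, hyp.2.2.2⟩
  rw [← hKdef] at hm ⊢
  have hK : K.Normal := by
    rw [hKdef]
    exact td.nK
  have hN : N.Normal := inferInstance
  have hpl : ∀ (a b : Prop) (T : ℕ → ℕ → Prop) (U : Set (ℂ ≃+* ℂ) → Prop),
      @Pl G _ (dt p O N K a b T U) _ hN y H P ⊥ := by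
    intro a b T U
    have hN' : (dt p O N K a b T U).N.Normal := hN
    exact
    { d := td
      hK := hKdef
      hO := hO
      hZn := inferInstance
      hZp := IsPGroup.of_bot
      hZ := fun c hc g => by
        rw [Subgroup.mem_bot.mp hc, one_mul, mul_one] }
  have hpc1 : ∀ (T : ℕ → ℕ → Prop) (U : Set (ℂ ≃+* ℂ) → Prop), (∀ k n l m : ℕ, k ≠ 0 → n ≠ 0 →
      l ≠ 0 → m ≠ 0 → k.factorization p + m.factorization p =
        l.factorization p + n.factorization p → (T k n ↔ T l m)) →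
      Pc (dt p O N K True False T U) := fun T U h =>
    ⟨Or.inl trivial, Or.inl trivial, fun k n l m hk hn hl hm h1 _ => h k n l m hk hn hl hm h1⟩
  have hpc2 : ∀ U : Set (ℂ ≃+* ℂ) → Prop, Pc (dt p O N K False True (fun _ _ => True) U) :=
    fun U => ⟨Or.inr trivial, Or.inr fun _ _ => trivial, fun _ _ _ _ _ _ _ _ _ _ => Iff.rfl⟩
  -- the block of `H`
  obtain ⟨z₀, hz₀, hz₀K, hz₀N⟩ := hm
  obtain ⟨⟨b, hb, hbi⟩, hbD⟩ := (prt2.unq G p O hO N y H P td B hB).1 D hDH hD
    ⟨z₀, hz₀, by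
      rw [hKdef] at hz₀K
      exact hz₀K, hz₀N⟩
  have hmt : ∀ (a c : Prop) (T : ℕ → ℕ → Prop) (U : Set (ℂ ≃+* ℂ) → Prop),
      Mts ((dt p O N K a c T U).res H) b := fun a c T U =>
    ⟨D.subgroupOf H, hbD, ⟨z₀, hDH hz₀⟩, hz₀, hz₀K, hz₀N⟩
  refine ⟨b, hb, hbi, hbD, ?_, ?_, ?_, ?_⟩
  · rintro b' hb' hi' ⟨E, hE, z, hz, hzK, hzN⟩
    exact @Pl.unique_block G _ _ (dt p O N K True True (fun _ _ => True) fun _ => True) hp hN y H P ⊥
      (hpl _ _ _ _) prt2 B hB b' b hb' hi' ⟨E, hE, z, hz, hzK, hzN⟩ hb hbi (hmt _ _ _ _)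
  · rintro E hE ⟨z, hz, hzK, hzN⟩
    refine (prt2.unq G p O hO N y H P td B hB).2.2 ⟨b, hb, hbi⟩ E hE ⟨z, hz, ?_, hzN⟩
    rw [hKdef] at hzK
    exact hzK
  · intro S
    have h1 := @Pl.single' G _ _ (dt p O N K False True (fun _ _ => True) fun U => U = S) hN hp y H P ⊥
      (hpl _ _ _ _) (hpc2 _) prt2 B hB b hb hbi (hmt _ _ _ _)
    have h2 : ct (dt p O N K False True (fun _ _ => True) fun U => U = S) B ⊤ =
        (knv p N K S B : ℤ) :=
      ct_nvn (Q := dt p O N K False True (fun _ _ => True) fun U => U = S) hB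
        (fun c hc => Subgroup.mem_bot.mp hc) rfl id trivial fun _ _ => trivial
    have h3 : ct ((dt p O N K False True (fun _ _ => True) fun U => U = S).res H) b ⊤ =
        (knv p (N.subgroupOf H) (K.subgroupOf H) S b : ℤ) :=
      ct_nvn (Q := (dt p O N K False True (fun _ _ => True) fun U => U = S).res H) hb
        (fun c hc => Subtype.ext (Subgroup.mem_bot.mp hc)) rfl id trivial fun _ _ => trivial
    exact Int.ofNat_inj.mp (h2.symm.trans (h1.trans h3))
  · rintro ⟨z, hz, hzc, hzK, hzN⟩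
    have hgood : ∀ (a c : Prop) (T : ℕ → ℕ → Prop) (U : Set (ℂ ≃+* ℂ) → Prop),
        good (dt p O N K a c T U) B := fun a c T U =>
      @good_of_defect G _ _ (dt p O N K a c T U) hp prt.mmz hO B hB D hD z hz hzc hzK hzN
    have hgood' : ∀ (a c : Prop) (T : ℕ → ℕ → Prop) (U : Set (ℂ ≃+* ℂ) → Prop),
        good ((dt p O N K a c T U).res H) b := fun a c T U =>
      @good_res G _ _ (dt p O N K a c T U) hN hp prt.gdt hK B hB (hgood a c T U) H b hb hbi
    have hkd : ∀ (T : ℕ → ℕ → Prop) (U : Set (ℂ ≃+* ℂ) → Prop), (∀ k n l m : ℕ, k ≠ 0 → n ≠ 0 →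
      l ≠ 0 → m ≠ 0 → k.factorization p + m.factorization p =
        l.factorization p + n.factorization p → (T k n ↔ T l m)) →
        Nat.card {χ : G → ℂ // χ ∈ B ∧
          (∃ n : ℕ, (n : ℂ) = χ 1 ∧ T (Nat.card G) n) ∧ U {τ | ∀ x, τ (χ x) = χ x}} =
        Nat.card {χ : H → ℂ // χ ∈ b ∧
          (∃ n : ℕ, (n : ℂ) = χ 1 ∧ T (Nat.card H) n) ∧ U {τ | ∀ x, τ (χ x) = χ x}} := by
      intro T U hT
      have h1 := @Pl.single' G _ _ (dt p O N K True False T U) hN hp y H P ⊥
        (hpl _ _ _ _) (hpc1 T U hT) prt2 B hB b hb hbi (hmt _ _ _ _)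
      have h2 := ct_god (Q := dt p O N K True False T U) hB
        (fun c hc => Subgroup.mem_bot.mp hc) rfl (hgood _ _ _ _) id
      have h3 := ct_god (Q := (dt p O N K True False T U).res H) hb
        (fun c hc => Subtype.ext (Subgroup.mem_bot.mp hc)) rfl (hgood' _ _ _ _) id
      exact Int.ofNat_inj.mp (h2.symm.trans (h1.trans h3))
    have hk : k B = k b := by
      have h1 := hkd (fun _ _ => True) (fun _ => True) fun _ _ _ _ _ _ _ _ _ => Iff.rfl
      have h2 : ∀ {A : Type} [Group A] [Fintype A] (B : Set (A → ℂ)), IsBlock O B →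
          Nat.card {χ : A → ℂ // χ ∈ B ∧ (∃ n : ℕ, (n : ℂ) = χ 1 ∧ True) ∧ True} = k B := by
        intro A _ _ B hB
        refine Nat.card_congr (Equiv.subtypeEquivRight fun χ => ⟨fun h => h.1, fun h => ?_⟩)
        obtain ⟨n, hn⟩ := irr_deg_nat (hB.irr χ h)
        exact ⟨h, ⟨n, hn, trivial⟩, trivial⟩
      rw [← h2 B hB, ← h2 b hb]
      exact h1
    refine ⟨fun b' hb' hi' => ?_, fun d S => ?_, hk, ?_⟩
    · exact @Pl.unique_good G _ _ (dt p O N K True True (fun _ _ => True) fun _ => True) hp hN y H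
        P ⊥ (hpl _ _ _ _) prt2 B hB (hgood _ _ _ _) b' b hb' hi' hb hbi
    · refine hkd (fun k n => k.factorization p = d + n.factorization p) (fun U => U = S) ?_
      intro k n l m _ _ _ _ h1
      omega
    · rw [hk, Nat.card_congr (Subgroup.subgroupOfEquivOfLe hDH).toEquiv]

end Pool.Agent.Results.MP_a15589_al.RelativeNumber
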