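import Pool.Agent.Q173.PT.Blocks

/-!
# Brauer's `k(B)`-conjecture up to a factor `|G| ^ ε` for infinitely many defects
-/

set_option autoImplicit false

open Pool.Agent.Q173.PT

namespace Pool.Agent.Results.MP_a15589_al.SubexponentialFactor

universe u

theorem result {V : Type u} (G : BlockData V) (p : ℕ) (hG : G.IsKnown p) :
    G.Brauer p ↔ ∀ ε : ℝ, 0 < ε → ∀ B : ℕ, ∃ n, B ≤ n ∧ ∀ M, G.d M = n →
      (G.k M : ℝ) ≤ p ^ n * (G.order M : ℝ) ^ ε :=
  hG.brauer_iff

end Pool.Agent.Results.MP_a15589_al.SubexponentialFactor
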